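import Mathlib

namespace Pool.Agent.Results.MP_62401a_nt.Four

/-- `p^r - p^(r-1) + ... + (-1)^r` -/
def altPP (p r : ℕ) : ℤ := ∑ j ∈ Finset.range (r + 1), (-1) ^ j * (p : ℤ) ^ (r - j)

/-- the multiplicative extension: product of `altPP p r` over the prime powers `p^r` exactly
dividing `n` -/
noncomputable def altSigma (n : ℕ) : ℤ := n.factorization.prod (fun p r => altPP p r)

lemma alt_mul (a b : ℕ) (h : Nat.Coprime a b) : altSigma (a * b) = altSigma a * altSigma b := by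
  unfold altSigma
  rw [Nat.factorization_mul_of_coprime h, Finsupp.prod_add_index_of_disjoint]
  simpa using h.disjoint_primeFactors

lemma alt_pow (p r : ℕ) (hp : p.Prime) : altSigma (p ^ r) = altPP p r := by
  unfold altSigma
  rw [hp.factorization_pow, Finsupp.prod_single_index]
  simp [altPP]

lemma step (p r b : ℕ) (hp : p.Prime) (h : Nat.Coprime (p ^ r) b) :
    altSigma (p ^ r * b) = altPP p r * altSigma b := by
  rw [alt_mul _ _ h, alt_pow p r hp]

lemma val : altSigma (2 ^ 13 * (3 ^ 8 * (5 ^ 1 * (7 ^ 2 * (11 ^ 1 * (13 ^ 1 * (19 ^ 1 * (23 ^ 1 *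
    (37 ^ 1 * (43 ^ 2 * (127 ^ 1 * 139 ^ 1))))))))))) =
    altPP 2 13 * (altPP 3 8 * (altPP 5 1 * (altPP 7 2 * (altPP 11 1 * (altPP 13 1 * (altPP 19 1 *
    (altPP 23 1 * (altPP 37 1 * (altPP 43 2 * (altPP 127 1 * altPP 139 1)))))))))) := by
  rw [step 2 13 _ (by norm_num) (by norm_num), step 3 8 _ (by norm_num) (by norm_num),
    step 5 1 _ (by norm_num) (by norm_num), step 7 2 _ (by norm_num) (by norm_num),
    step 11 1 _ (by norm_num) (by norm_num), step 13 1 _ (by norm_num) (by norm_num),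
    step 19 1 _ (by norm_num) (by norm_num), step 23 1 _ (by norm_num) (by norm_num),
    step 37 1 _ (by norm_num) (by norm_num), step 43 2 _ (by norm_num) (by norm_num),
    step 127 1 _ (by norm_num) (by norm_num), alt_pow 139 1 (by norm_num)]

theorem result : ∃ k : ℕ, 4 ≤ k ∧ ∃ n : ℕ, 0 < n ∧ (k : ℤ) * altSigma n = (n : ℤ) := by
  refine ⟨4, le_rfl, 2 ^ 13 * (3 ^ 8 * (5 ^ 1 * (7 ^ 2 * (11 ^ 1 * (13 ^ 1 * (19 ^ 1 * (23 ^ 1 *
    (37 ^ 1 * (43 ^ 2 * (127 ^ 1 * 139 ^ 1)))))))))), by norm_num, ?_⟩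
  rw [val]
  simp only [altPP, Finset.sum_range_succ, Finset.range_zero, Finset.sum_empty]
  norm_num

end Pool.Agent.Results.MP_62401a_nt.Four
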